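import Pool.Agent.Work.MP_63d28d_an.Final

open Real Metric Set Filter Topology Pool.Agent.Work.MP_63d28d_an

namespace Pool.Agent.Results.MP_63d28d_an.CoreSmoothness

lemma exists_gamma {x y : ℝ} (hx : 0 < x) (hy : 0 < y) :
    ∃ γ : ℝ, 0 < γ ∧ γ ≤ 1 ∧ x ^ γ ≤ 2 ∧ 1 / 2 ≤ y ^ γ := by
  have c1 : Tendsto (fun γ : ℝ => x ^ γ) (𝓝 0) (𝓝 (x ^ (0:ℝ))) :=
    (Real.continuousAt_const_rpow hx.ne').tendsto
  have c2 : Tendsto (fun γ : ℝ => y ^ γ) (𝓝 0) (𝓝 (y ^ (0:ℝ))) :=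
    (Real.continuousAt_const_rpow hy.ne').tendsto
  rw [Real.rpow_zero] at c1 c2
  have e1 : ∀ᶠ γ : ℝ in 𝓝 0, x ^ γ < 2 := c1.eventually_lt_const (by norm_num)
  have e2 : ∀ᶠ γ : ℝ in 𝓝 0, 1 / 2 < y ^ γ := c2.eventually_const_lt (by norm_num)
  have e3 : ∀ᶠ γ : ℝ in 𝓝 0, γ < 1 := eventually_lt_nhds one_pos
  have e : ∀ᶠ γ : ℝ in 𝓝[>] 0, (x ^ γ < 2 ∧ 1 / 2 < y ^ γ) ∧ γ < 1 :=
    ((e1.and e2).and e3).filter_mono nhdsWithin_le_nhds
  obtain ⟨γ, ⟨⟨h1, h2⟩, h3⟩, h4⟩ := (e.and self_mem_nhdsWithin).exists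
  exact ⟨γ, h4, h3.le, h1.le, h2.le⟩

lemma exists_b {γ A c : ℝ} (hγ : 0 < γ) (hc : 0 < c) :
    ∃ b : ℝ, 0 < b ∧ b < c ∧ b ^ γ ≤ 1 / 8 ∧ (A * b) ^ γ ≤ 1 / 8 := by
  have c1 : Tendsto (fun b : ℝ => b ^ γ) (𝓝 0) (𝓝 ((0:ℝ) ^ γ)) :=
    (Real.continuousAt_rpow_const 0 γ (Or.inr hγ.le)).tendsto
  have c2 : Tendsto (fun b : ℝ => (A * b) ^ γ) (𝓝 0) (𝓝 ((A * 0) ^ γ)) := by
    have : ContinuousAt (fun b : ℝ => (A * b) ^ γ) 0 :=
      ContinuousAt.rpow_const (by fun_prop) (Or.inr hγ.le)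
    exact this.tendsto
  rw [mul_zero] at c2
  rw [Real.zero_rpow hγ.ne'] at c1 c2
  have e1 : ∀ᶠ b : ℝ in 𝓝 0, b ^ γ < 1 / 8 := c1.eventually_lt_const (by norm_num)
  have e2 : ∀ᶠ b : ℝ in 𝓝 0, (A * b) ^ γ < 1 / 8 := c2.eventually_lt_const (by norm_num)
  have e3 : ∀ᶠ b : ℝ in 𝓝 0, b < c := eventually_lt_nhds hc
  have e : ∀ᶠ b : ℝ in 𝓝[>] 0, (b ^ γ < 1 / 8 ∧ (A * b) ^ γ < 1 / 8) ∧ b < c :=
    ((e1.and e2).and e3).filter_mono nhdsWithin_le_nhds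
  obtain ⟨b, ⟨⟨h1, h2⟩, h3⟩, h4⟩ := (e.and self_mem_nhdsWithin).exists
  exact ⟨b, h4, h3, h1.le, h2.le⟩

/-- existence of the parameters -/
lemma exists_par : ∃ p : Par, ∀ x : ℂ, ‖x‖ = 1 / 2 → ∀ ε > 0, ∃ k, ‖p.w k - x‖ < ε ∧ ‖p.q k‖ < ε := by
  have hne : Nonempty (sphere (0:ℂ) (1 / 2)) :=
    (NormedSpace.sphere_nonempty.2 (by norm_num : (0:ℝ) ≤ 1 / 2)).to_subtype
  set d := TopologicalSpace.denseSeq (sphere (0:ℂ) (1 / 2)) with hd
  have hη : ∀ k : ℕ, (0:ℝ) < (1 / 2) ^ k / 10000 := fun k => by positivity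
  have hs : ∀ k : ℕ, (0:ℝ) < (1 / 2) ^ (k + 4) := fun k => by positivity
  have hA : ∀ k : ℕ, (0:ℝ) < 2 * (2 / (1 / 2) ^ (k + 4)) := fun k => by positivity
  have hη32 : ∀ k : ℕ, (0:ℝ) < (1 / 2) ^ k / 10000 / 32 := fun k => by positivity
  choose γ hγ0 hγ1 h1 h2 using fun k => exists_gamma (hA k) (hη32 k)
  have hc : ∀ k : ℕ, (0:ℝ) < min ((1 / 2) ^ k / 10000 / 16) ((1 / 2) ^ (k + 4)) := fun k => by positivity
  choose b hb0 hbc hb1 hb2 using fun k => exists_b (A := 2 / (1 / 2) ^ (k + 4)) (hγ0 k) (hc k)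
  have hgeo : HasSum (fun k : ℕ => ((1:ℝ) / 2) ^ k) 2 := hasSum_geometric_two
  refine ⟨{ w := fun k => d (Nat.unpair k).1
            q := fun k => (((1 / 2 : ℝ) ^ (k + 1) : ℝ) : ℂ)
            s := fun k => (1 / 2) ^ (k + 4)
            η := fun k => (1 / 2) ^ k / 10000
            A := fun k => 2 / (1 / 2) ^ (k + 4)
            γ := γ
            b := b
            hw := fun k => mem_sphere_zero_iff_norm.1 (d (Nat.unpair k).1).2
            hq := ?_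
            hdisj := ?_
            hη := hη
            hη1 := ?_
            hηs := (hgeo.div_const 10000).summable
            hηt := ?_
            hs := hs
            hA := fun k => by field_simp
            hγ0 := hγ0
            hγ1 := hγ1
            h1 := h1
            h2 := h2
            hb := hb0
            hbη := fun k => (hbc k).trans_le (min_le_left _ _)
            hbs := fun k => (hbc k).trans_le (min_le_right _ _)
            hb1 := hb1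
            hb2 := hb2 }, ?_⟩
  · intro k
    rw [Complex.norm_real, norm_eq_abs, abs_of_pos (by positivity)]
    calc ((1:ℝ) / 2) ^ (k + 1) ≤ (1 / 2) ^ 1 :=
          pow_le_pow_of_le_one (by norm_num) (by norm_num) (by omega)
      _ = 1 / 2 := by norm_num
  · -- disjointness
    have key : ∀ k l : ℕ, k < l → ∀ x : ℂ, ‖x - (((1 / 2 : ℝ) ^ (k + 1) : ℝ) : ℂ)‖ < (1 / 2) ^ (k + 4) →
        ‖x - (((1 / 2 : ℝ) ^ (l + 1) : ℝ) : ℂ)‖ < (1 / 2) ^ (l + 4) → False := by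
      intro k l hkl x hx1 hx2
      have h3 : ‖(((1 / 2 : ℝ) ^ (k + 1) - (1 / 2 : ℝ) ^ (l + 1) : ℝ) : ℂ)‖ <
          (1 / 2) ^ (k + 4) + (1 / 2) ^ (l + 4) := by
        have e : (((1 / 2 : ℝ) ^ (k + 1) - (1 / 2 : ℝ) ^ (l + 1) : ℝ) : ℂ) =
            (x - (((1 / 2 : ℝ) ^ (l + 1) : ℝ) : ℂ)) - (x - (((1 / 2 : ℝ) ^ (k + 1) : ℝ) : ℂ)) := by
          push_cast
          ring
        rw [e]
        have := norm_sub_le (x - (((1 / 2 : ℝ) ^ (l + 1) : ℝ) : ℂ)) (x - (((1 / 2 : ℝ) ^ (k + 1) : ℝ) : ℂ))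
        linarith
      rw [Complex.norm_real, norm_eq_abs] at h3
      have h4 := le_abs_self ((1 / 2 : ℝ) ^ (k + 1) - (1 / 2 : ℝ) ^ (l + 1))
      have h5 : ((1:ℝ) / 2) ^ l ≤ (1 / 2) ^ (k + 1) :=
        pow_le_pow_of_le_one (by norm_num) (by norm_num) (by omega)
      simp only [pow_add] at h3 h4 h5
      norm_num at h3 h4 h5
      have h6 : (0:ℝ) < (1 / 2) ^ k := by positivity
      linarith
    intro k l x hx1 hx2
    rcases lt_trichotomy k l with h | h | h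
    · exact (key k l h x hx1 hx2).elim
    · exact h
    · exact (key l k h x hx2 hx1).elim
  · intro k
    have : ((1:ℝ) / 2) ^ k ≤ 1 := pow_le_one₀ (by norm_num) (by norm_num)
    linarith
  · have h3 : HasSum (fun k : ℕ => 2 * (((1:ℝ) / 2) ^ k / 10000)) (2 * (2 / 10000)) :=
      (hgeo.div_const 10000).mul_left 2
    rw [h3.tsum_eq]
    norm_num
  · intro x hx ε hε
    have hdense := TopologicalSpace.denseRange_denseSeq (sphere (0:ℂ) (1 / 2))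
    have hx' : x ∈ sphere (0:ℂ) (1 / 2) := by simpa using hx
    obtain ⟨m, hm⟩ := hdense.exists_dist_lt (⟨x, hx'⟩ : sphere (0:ℂ) (1 / 2)) hε
    obtain ⟨n, hn⟩ := exists_pow_lt_of_lt_one hε (by norm_num : ((1:ℝ) / 2) < 1)
    refine ⟨Nat.pair m n, ?_, ?_⟩
    · simp only [Nat.unpair_pair]
      rw [Subtype.dist_eq, dist_comm, dist_eq_norm] at hm
      exact hm
    · simp only
      rw [Complex.norm_real, norm_eq_abs, abs_of_pos (by positivity)]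
      refine lt_of_le_of_lt (pow_le_pow_of_le_one (by norm_num) (by norm_num) ?_) hn
      have := Nat.right_le_pair m n
      omega

/-- There is a domain in `ℂ³` with a point in its `C^s`-core for every `s ≥ 1` but not in its
`C⁰`-core; in particular the core of a domain does depend on the smoothness class. -/
theorem result :
    (∃ Ω : Set (EuclideanSpace ℂ (Fin 3)), IsOpen Ω ∧ IsConnected Ω ∧
      ∃ z ∈ Ω, z ∉ core 0 Ω ∧ ∀ s : ℕ∞, 1 ≤ s → z ∈ core s Ω) ∧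
    ¬ (∀ (n : ℕ) (Ω : Set (EuclideanSpace ℂ (Fin n))), 1 ≤ n → IsOpen Ω → IsConnected Ω →
      ∀ s₁ s₂ : ℕ∞, core s₁ Ω = core s₂ Ω) := by
  obtain ⟨p, hp⟩ := exists_par
  have hqlt : ∀ k, ‖p.q k‖ < 1 := fun k => lt_of_le_of_lt (p.hq k) (by norm_num)
  have hwlt : ∀ k, ‖p.w k‖ < 1 := fun k => by rw [p.hw k]; norm_num
  have hmem : ∀ s : ℕ∞, 1 ≤ s → (0 : EuclideanSpace ℂ (Fin 3)) ∈ core s (Om p.w p.q p.b) :=
    fun s hs => mem_core_smooth hqlt p.hw p.hb hp hs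
  refine ⟨⟨Om p.w p.q p.b, isOpen_Om _ _ _, isConnected_Om hwlt hqlt p.hb, 0,
    (hmem 1 le_rfl).1, p.not_mem_core_zero, hmem⟩, ?_⟩
  intro hall
  have h := hall 3 (Om p.w p.q p.b) (by norm_num) (isOpen_Om _ _ _) (isConnected_Om hwlt hqlt p.hb) 0 1
  apply p.not_mem_core_zero
  rw [h]
  exact hmem 1 le_rfl

end Pool.Agent.Results.MP_63d28d_an.CoreSmoothness
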